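import Pool.Agent.H899.JC.Conj
import Pool.Agent.H899.JC.JH

/-!
A counterexample to the conjecture of James in quantum characteristic 3: p = 11 and n = 30 < 33.

The algebra `Hecke q n`, the signed permutation module `Tens` with the operators `opF`, the
generator `zT` and the Specht module `Specht q n κ` are defined in the modules Public and Rep of
the project JC3 of the common library.
-/

set_option autoImplicit false

namespace Pool.Agent.Results.MP_36c429_al.JamesFailsE3

open Pool.Agent.JC3 Pool.Agent.H899.JC IsLocalRing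

/-- `e` is the quantum characteristic of `q`: the least positive integer with
`1 + q + ... + q ^ (e - 1) = 0` -/
def QuantumChar {F : Type} [Field F] (q : F) (e : ℕ) : Prop :=
  IsLeast {m : ℕ | 0 < m ∧ ∑ i ∈ Finset.range m, q ^ i = 0} e

/-- the partition (6, 4, 2, 2, 2, 1, ..., 1) of 30, with 14 parts 1 -/
def lam : List ℕ := [6, 4, 2, 2, 2, 1, 1, 1, 1, 1, 1, 1, 1, 1, 1, 1, 1, 1, 1]

lemma root_of_qc {F : Type} [Field F] {q : F} (h : QuantumChar q 3) : 1 + q + q ^ 2 = 0 := by
  have h1 := h.1.2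
  rw [Finset.sum_range_succ, Finset.sum_range_succ, Finset.sum_range_one, pow_zero,
    pow_one] at h1
  exact h1

lemma root_of_prim {ζ : ℂ} (hζ : IsPrimitiveRoot ζ 3) : 1 + ζ + ζ ^ 2 = 0 := by
  have h := hζ.geom_sum_eq_zero (by norm_num)
  rw [Finset.sum_range_succ, Finset.sum_range_succ, Finset.sum_range_one, pow_zero, pow_one] at h
  exact h

lemma qc_of_root {F : Type} [Field F] {q : F} (h : 1 + q + q ^ 2 = 0) : QuantumChar q 3 := by
  refine ⟨⟨by norm_num, ?_⟩, ?_⟩
  · rw [Finset.sum_range_succ, Finset.sum_range_succ, Finset.sum_range_one, pow_zero, pow_one]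
    exact h
  · rintro m ⟨hm, hs⟩
    by_contra hlt
    have : m = 1 ∨ m = 2 := by omega
    rcases this with rfl | rfl
    · rw [Finset.sum_range_one, pow_zero] at hs
      exact one_ne_zero hs
    · rw [Finset.sum_range_succ, Finset.sum_range_one, pow_zero, pow_one] at hs
      exact (hq1 h).2 hs

lemma len {k : Type} [Field k] (q : k) :
    ((Module.length (Hecke q 30) (Specht q 30 kap) : ℕ∞) : WithBot ℕ∞) =
      Order.krullDim (SubSt q kap) := by
  have h := length_eq q kap
  rw [kap_sum] at h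
  exact h

lemma fin_krull {k : Type} [Field k] (q : k) :
    ∃ N : ℕ, Order.krullDim (SubSt q kap) = (N : ℕ∞) := by
  have hMC := SpL_le_MM q kap
  have : Nonempty (SubSt q kap) := ⟨⟨SpL q kap, SpL_stable _ _, le_rfl⟩⟩
  refine exists_nat_krullDim (Module.finrank k (SpL q kap)) (fun p => ?_)
  have := finiteDimensional_of_le_MM hMC
  have key : ∀ n : ℕ, ∀ h : n < p.length + 1, n ≤ Module.finrank k (p ⟨n, h⟩).1 := by
    intro n
    induction n with
    | zero => intro h; exact Nat.zero_le _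
    | succ n ih =>
      intro h
      have h1 := ih (by omega)
      have h2 : p ⟨n, by omega⟩ < p ⟨n + 1, h⟩ := p.strictMono (by simp [Fin.lt_def])
      have := finiteDimensional_of_le_MM ((p ⟨n + 1, h⟩).2.2.trans hMC)
      have h3 := Submodule.finrank_lt_finrank_of_lt
        (show (p ⟨n, by omega⟩).1 < (p ⟨n + 1, h⟩).1 from h2)
      omega
  exact (key p.length (by omega)).trans (Submodule.finrank_mono (p ⟨p.length, by omega⟩).2.2)

lemma len_ne_top {k : Type} [Field k] (q : k) :
    Module.length (Hecke q 30) (Specht q 30 kap) ≠ ⊤ := by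
  obtain ⟨N, hN⟩ := fin_krull q
  rw [← len, WithBot.coe_inj] at hN
  rw [hN]
  exact ENat.natCast_ne_top N

/-- **James's conjecture fails for e = 3 (with p = 11 and n = 30 < 33).** -/
theorem result :
    lam.Pairwise (· ≥ ·) ∧ (∀ b ∈ lam, 0 < b) ∧ lam.sum = 30 ∧ 30 < 3 * 11 ∧
    ∃ (F : Type) (_ : Field F), IsAlgClosed F ∧ CharP F 11 ∧ (∃ q : F, QuantumChar q 3) ∧
      ∀ (ζ : ℂ) (q : F), IsPrimitiveRoot ζ 3 → QuantumChar q 3 →
        Module.length (Hecke q 30) (Specht q 30 lam) ≠ ⊤ ∧
        Module.length (Hecke ζ 30) (Specht ζ 30 lam) <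
          Module.length (Hecke q 30) (Specht q 30 lam) ∧
        ∀ (I : Type) (D₀ D₁₁ : I → Type) [∀ μ, AddCommGroup (D₀ μ)]
          [∀ μ, Module (Hecke ζ 30) (D₀ μ)] [∀ μ, AddCommGroup (D₁₁ μ)]
          [∀ μ, Module (Hecke q 30) (D₁₁ μ)],
          IsList (Hecke ζ 30) D₀ → IsList (Hecke q 30) D₁₁ →
          ∃ μ : I, mult (Hecke ζ 30) (Specht ζ 30 lam) (D₀ μ) ≠
            mult (Hecke q 30) (Specht q 30 lam) (D₁₁ μ) := by
  refine ⟨by decide, by decide, by decide, by norm_num, ?_⟩
  obtain ⟨A, h11, hcl⟩ := I1_proof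
  refine ⟨ResidueField A, inferInstance, hcl, ?_, ?_, ?_⟩
  · exact (CharP.charP_iff_prime_eq_zero (by norm_num)).2 (by exact_mod_cast (good_of A h11).1)
  · have hp := root_of_prim (Complex.isPrimitiveRoot_exp 3 (by norm_num))
    exact ⟨_, qc_of_root (one_add A ⟨_, mem_of_root hp⟩ hp)⟩
  · intro ζ q hζ hq
    have hζ' := root_of_prim hζ
    have hlt : Module.length (Hecke ζ 30) (Specht ζ 30 kap) <
        Module.length (Hecke q 30) (Specht q 30 kap) := by
      have h := krull_lt' A h11 hζ' (root_of_qc hq)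
      rw [← len, ← len, WithBot.coe_lt_coe] at h
      exact h
    refine ⟨len_ne_top q, hlt, ?_⟩
    intro I D₀ D₁₁ _ _ _ _ h0 h1
    by_contra hne
    exact hlt.ne (length_eq_of_mult (len_ne_top ζ) (len_ne_top q) D₀ D₁₁ h0 h1
      (fun μ => not_not.1 (fun h => hne ⟨μ, h⟩)))

end Pool.Agent.Results.MP_36c429_al.JamesFailsE3
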